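import Mathlib
import Pool.Agent.SNIP.Arch

/-!
Every ordered field whose complete theory (in the language of ordered rings) is strongly NIP and
which is dense in its real closure is real closed. Strong NIP is stated for the first-order
theory, with formulas, finite tuples of variables and parameters in arbitrary models.
-/

set_option autoImplicit false

namespace Pool.Agent.Results.MP_1cfd08_lc.FirstOrderForm

open Pool.Agent.SNIP.Th

theorem result :
    ∀ (K R : Type) [Field K] [LinearOrder K] [IsStrictOrderedRing K]
      [Field R] [LinearOrder R] [IsStrictOrderedRing R] [IsRealClosed R]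
      [Algebra K R] [Algebra.IsAlgebraic K R],
      StrictMono (algebraMap K R) →
      (∀ a b : R, a < b → ∃ c : K, a < algebraMap K R c ∧ algebraMap K R c < b) →
      StronglyNIP (thy K) →
      IsRealClosed K := by
  intro K R _ _ _ _ _ _ _ _ _ hf hdense hN
  refine isRealClosed_of K R (algebraMap K R) hf ?_ ?_ ?_ hdense (strongNIP_of_thy K hN)
  · intro r
    obtain ⟨p, hp, hr⟩ := Algebra.IsAlgebraic.isAlgebraic (R := K) r
    exact ⟨p, hp, hr⟩
  · intro r hr
    rcases IsRealClosed.isSquare_or_isSquare_neg r with h | h
    · obtain ⟨s, hs⟩ := h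
      exact ⟨s, hs.symm⟩
    · obtain ⟨s, hs⟩ := h
      exfalso
      have h1 : 0 ≤ s * s := mul_self_nonneg s
      rw [← hs] at h1
      linarith
  · intro p hp
    exact IsRealClosed.exists_isRoot_of_odd_natDegree hp

end Pool.Agent.Results.MP_1cfd08_lc.FirstOrderForm
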